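import Pool.Agent.Work.MP_b29d7f_ns.Interface

/-!
# Block PDG: `-log(‖x-y‖²+ρ²)` is conditionally positive definite

`PDG_.G1`: Gaussian identity; `PDG_.G2`: the quantitative inequality (Frullani).
-/

set_option autoImplicit false

open Finset Filter Topology MeasureTheory

namespace Pool.NS

namespace PDG_

variable {k : ℕ} {ι : Type}

theorem gauss_int {b : ℝ} (hb : 0 < b) (m : E k) :
    ∫ z : E k, Real.exp (-(b * ‖z - m‖ ^ 2)) = (Real.pi / b) ^ ((k : ℝ) / 2) := by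
  have h1 : ∫ z : E k, Real.exp (-(b * ‖z - m‖ ^ 2)) = ∫ z : E k, Real.exp (-b * ‖z‖ ^ 2) := by
    rw [← integral_sub_right_eq_self (fun z : E k => Real.exp (-b * ‖z‖ ^ 2)) m]
    refine integral_congr_ae (Eventually.of_forall fun z => ?_)
    simp only [neg_mul]
  rw [h1, GaussianFourier.integral_rexp_neg_mul_sq_norm hb]
  simp

theorem gauss_integrable {b : ℝ} (hb : 0 < b) (m : E k) :
    Integrable (fun z : E k => Real.exp (-(b * ‖z - m‖ ^ 2))) := by
  by_contra h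
  have h1 := integral_undef h
  rw [gauss_int hb m] at h1
  have h2 : 0 < (Real.pi / b) ^ ((k : ℝ) / 2) := Real.rpow_pos_of_pos (by positivity) _
  exact h2.ne' h1

theorem expo_id (x y z : E k) (t : ℝ) :
    -(2 * t * ‖x - z‖ ^ 2) + -(2 * t * ‖y - z‖ ^ 2)
      = -(t * ‖x - y‖ ^ 2) + -(4 * t * ‖z - (1 / 2 : ℝ) • (x + y)‖ ^ 2) := by
  have h := parallelogram_law_with_norm ℝ (x - z) (y - z)
  have h1 : x - z + (y - z) = (-2 : ℝ) • (z - (1 / 2 : ℝ) • (x + y)) := by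
    module
  have h2 : x - z - (y - z) = x - y := by abel
  rw [h1, h2, norm_smul] at h
  have h3 : ‖(-2 : ℝ)‖ = 2 := by norm_num
  rw [h3] at h
  linear_combination t * h

theorem pair_int {t : ℝ} (ht : 0 < t) (x y : E k) :
    ∫ z : E k, Real.exp (-(2 * t * ‖x - z‖ ^ 2)) * Real.exp (-(2 * t * ‖y - z‖ ^ 2))
      = (Real.pi / (4 * t)) ^ ((k : ℝ) / 2) * Real.exp (-(t * ‖x - y‖ ^ 2)) := by
  have h1 : (fun z : E k => Real.exp (-(2 * t * ‖x - z‖ ^ 2)) * Real.exp (-(2 * t * ‖y - z‖ ^ 2)))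
      = fun z : E k => Real.exp (-(t * ‖x - y‖ ^ 2))
        * Real.exp (-(4 * t * ‖z - (1 / 2 : ℝ) • (x + y)‖ ^ 2)) := by
    funext z
    rw [← Real.exp_add, ← Real.exp_add, expo_id]
  rw [h1, integral_const_mul, gauss_int (by positivity), mul_comm]

theorem pair_integrable {t : ℝ} (ht : 0 < t) (x y : E k) :
    Integrable (fun z : E k =>
      Real.exp (-(2 * t * ‖x - z‖ ^ 2)) * Real.exp (-(2 * t * ‖y - z‖ ^ 2))) := by
  have h1 : (fun z : E k => Real.exp (-(2 * t * ‖x - z‖ ^ 2)) * Real.exp (-(2 * t * ‖y - z‖ ^ 2)))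
      = fun z : E k => Real.exp (-(t * ‖x - y‖ ^ 2))
        * Real.exp (-(4 * t * ‖z - (1 / 2 : ℝ) • (x + y)‖ ^ 2)) := by
    funext z
    rw [← Real.exp_add, ← Real.exp_add, expo_id]
  rw [h1]
  exact (gauss_integrable (by positivity) _).const_mul _

/-- (G1) the Gaussian identity -/
theorem G1 (s : Finset ι) (y : ι → E k) (f : ι → ℝ) {t : ℝ} (ht : 0 < t) :
    ∑ i ∈ s, ∑ j ∈ s, f i * f j * Real.exp (-(t * ‖y i - y j‖ ^ 2))
      = (4 * t / Real.pi) ^ ((k : ℝ) / 2)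
        * ∫ z : E k, (∑ i ∈ s, f i * Real.exp (-(2 * t * ‖y i - z‖ ^ 2))) ^ 2 := by
  have h1 : ∀ z : E k, (∑ i ∈ s, f i * Real.exp (-(2 * t * ‖y i - z‖ ^ 2))) ^ 2
      = ∑ i ∈ s, ∑ j ∈ s, f i * f j * (Real.exp (-(2 * t * ‖y i - z‖ ^ 2))
          * Real.exp (-(2 * t * ‖y j - z‖ ^ 2))) := by
    intro z
    rw [sq, Finset.sum_mul_sum]
    refine Finset.sum_congr rfl fun i _ => Finset.sum_congr rfl fun j _ => by ring
  have h2 : ∫ z : E k, (∑ i ∈ s, f i * Real.exp (-(2 * t * ‖y i - z‖ ^ 2))) ^ 2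
      = ∑ i ∈ s, ∑ j ∈ s, f i * f j * ((Real.pi / (4 * t)) ^ ((k : ℝ) / 2)
          * Real.exp (-(t * ‖y i - y j‖ ^ 2))) := by
    simp only [h1]
    rw [integral_finsetSum]
    · refine Finset.sum_congr rfl fun i _ => ?_
      rw [integral_finsetSum]
      · refine Finset.sum_congr rfl fun j _ => ?_
        rw [integral_const_mul, pair_int ht]
      · exact fun j _ => (pair_integrable ht _ _).const_mul _
    · exact fun i _ => integrable_finsetSum _ fun j _ => (pair_integrable ht _ _).const_mul _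
  rw [h2, Finset.mul_sum]
  refine Finset.sum_congr rfl fun i _ => ?_
  rw [Finset.mul_sum]
  refine Finset.sum_congr rfl fun j _ => ?_
  have h3 : (4 * t / Real.pi) ^ ((k : ℝ) / 2) * (Real.pi / (4 * t)) ^ ((k : ℝ) / 2) = 1 := by
    rw [← Real.mul_rpow (by positivity) (by positivity)]
    have h4 : 4 * t / Real.pi * (Real.pi / (4 * t)) = 1 := by
      have := Real.pi_pos.ne'
      field_simp
    rw [h4, Real.one_rpow]
  calc f i * f j * Real.exp (-(t * ‖y i - y j‖ ^ 2))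
      = ((4 * t / Real.pi) ^ ((k : ℝ) / 2) * (Real.pi / (4 * t)) ^ ((k : ℝ) / 2))
        * (f i * f j * Real.exp (-(t * ‖y i - y j‖ ^ 2))) := by rw [h3, one_mul]
    _ = _ := by ring

theorem G_nonneg (s : Finset ι) (y : ι → E k) (f : ι → ℝ) {t : ℝ} (ht : 0 < t) :
    0 ≤ ∑ i ∈ s, ∑ j ∈ s, f i * f j * Real.exp (-(t * ‖y i - y j‖ ^ 2)) := by
  rw [G1 s y f ht]
  exact mul_nonneg (Real.rpow_nonneg (by positivity) _)
    (integral_nonneg fun z => sq_nonneg _)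

/-- (G2) lower bound for the energy (Frullani's integral) -/
theorem G2 (s : Finset ι) (y : ι → E k) (f : ι → ℝ) {ρ : ℝ} (hρ : 0 < ρ)
    (hf : ∑ i ∈ s, f i = 0) {a b : ℝ} (ha : 0 < a) (hab : a ≤ b) :
    ∫ t in a..b, Real.exp (-(t * ρ ^ 2))
        * (∑ i ∈ s, ∑ j ∈ s, f i * f j * Real.exp (-(t * ‖y i - y j‖ ^ 2))) / t
      ≤ -∑ i ∈ s, ∑ j ∈ s, f i * f j * Real.log (‖y i - y j‖ ^ 2 + ρ ^ 2) := by
  set g : ℝ → ℝ := fun t => Real.exp (-(t * ρ ^ 2))
        * (∑ i ∈ s, ∑ j ∈ s, f i * f j * Real.exp (-(t * ‖y i - y j‖ ^ 2))) / t with hg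
  set e : ℝ → ℝ := fun t => Real.exp (-t) with he
  have hec : Continuous e := by fun_prop
  have hloc : LocallyIntegrableOn e (Set.Ioi 0) :=
    hec.locallyIntegrable.locallyIntegrableOn _
  have hL : Tendsto e (𝓝[>] 0) (𝓝 1) := by
    have h := (hec.tendsto 0)
    have h0 : e 0 = 1 := by simp [he]
    rw [h0] at h
    exact h.mono_left nhdsWithin_le_nhds
  have hR : Tendsto e atTop (𝓝 0) := Real.tendsto_exp_neg_atTop_nhds_zero
  have hA : ∀ i j, 0 < ‖y i - y j‖ ^ 2 + ρ ^ 2 := fun i j => by positivity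
  have hlim : ∀ i j, Tendsto (fun p : ℝ × ℝ => ∫ x in p.1..p.2,
      x⁻¹ • (e ((‖y i - y j‖ ^ 2 + ρ ^ 2) * x) - e (1 * x))) ((𝓝[>] 0) ×ˢ atTop)
      (𝓝 (-Real.log (‖y i - y j‖ ^ 2 + ρ ^ 2))) := by
    intro i j
    have h := Frullani.tendsto_intervalIntegral hloc (hA i j) one_pos hL hR
    have h1 : Real.log (1 / (‖y i - y j‖ ^ 2 + ρ ^ 2)) • ((1 : ℝ) - 0)
        = -Real.log (‖y i - y j‖ ^ 2 + ρ ^ 2) := by
      rw [Real.log_div one_ne_zero (hA i j).ne', Real.log_one]; simp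
    rw [h1] at h
    exact h
  have hlim2 : Tendsto (fun p : ℝ × ℝ => ∑ i ∈ s, ∑ j ∈ s, f i * f j * ∫ x in p.1..p.2,
      x⁻¹ • (e ((‖y i - y j‖ ^ 2 + ρ ^ 2) * x) - e (1 * x))) ((𝓝[>] 0) ×ˢ atTop)
      (𝓝 (∑ i ∈ s, ∑ j ∈ s, f i * f j * (-Real.log (‖y i - y j‖ ^ 2 + ρ ^ 2)))) :=
    tendsto_finsetSum _ fun i _ => tendsto_finsetSum _ fun j _ => (hlim i j).const_mul _
  have hrhs : ∑ i ∈ s, ∑ j ∈ s, f i * f j * (-Real.log (‖y i - y j‖ ^ 2 + ρ ^ 2))
      = -∑ i ∈ s, ∑ j ∈ s, f i * f j * Real.log (‖y i - y j‖ ^ 2 + ρ ^ 2) := by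
    simp only [mul_neg, Finset.sum_neg_distrib]
  rw [hrhs] at hlim2
  refine ge_of_tendsto hlim2 ?_
  have hev : ∀ᶠ p : ℝ × ℝ in (𝓝[>] 0) ×ˢ atTop, p ∈ Set.Ioc 0 a ×ˢ Set.Ici b :=
    prod_mem_prod (Ioc_mem_nhdsGT ha) (Ici_mem_atTop b)
  filter_upwards [hev] with p hp
  obtain ⟨ε, r⟩ := p
  obtain ⟨⟨hε0, hεa⟩, hrb⟩ := hp
  simp only at hε0 hεa
  have hrb' : b ≤ r := hrb
  have hr0 : 0 < r := lt_of_lt_of_le ha (hab.trans hrb')
  have hεr : ε ≤ r := hεa.trans (hab.trans hrb')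
  have hcont : ContinuousOn g (Set.uIcc ε r) := by
    rw [hg]
    refine ContinuousOn.div ?_ continuousOn_id ?_
    · exact Continuous.continuousOn (by fun_prop)
    · intro x hx
      rw [Set.uIcc_of_le hεr] at hx
      exact (lt_of_lt_of_le hε0 hx.1).ne'
  have hgi : IntervalIntegrable g volume ε r := hcont.intervalIntegrable
  have hmono : ∫ t in a..b, g t ≤ ∫ t in ε..r, g t := by
    refine intervalIntegral.integral_mono_interval hεa hab hrb' ?_ hgi
    refine (ae_restrict_iff' measurableSet_Ioc).2 (Eventually.of_forall fun t ht => ?_)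
    have ht0 : 0 < t := hε0.trans ht.1
    exact div_nonneg (mul_nonneg (Real.exp_nonneg _) (G_nonneg s y f ht0)) ht0.le
  refine hmono.trans (le_of_eq ?_)
  have hint : ∀ i j, IntervalIntegrable (fun x => x⁻¹ •
      (e ((‖y i - y j‖ ^ 2 + ρ ^ 2) * x) - e (1 * x))) volume ε r := by
    intro i j
    refine ContinuousOn.intervalIntegrable ?_
    have hc : Continuous fun x : ℝ => e ((‖y i - y j‖ ^ 2 + ρ ^ 2) * x) - e (1 * x) :=
      (hec.comp (continuous_const.mul continuous_id)).sub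
        (hec.comp (continuous_const.mul continuous_id))
    have hi : ContinuousOn (fun x : ℝ => x⁻¹) (Set.uIcc ε r) := by
      refine continuousOn_inv₀.mono fun x hx => ?_
      rw [Set.uIcc_of_le hεr] at hx
      exact (lt_of_lt_of_le hε0 hx.1).ne'
    exact hi.smul hc.continuousOn
  have h3 : ∑ i ∈ s, ∑ j ∈ s, f i * f j * ∫ x in ε..r,
      x⁻¹ • (e ((‖y i - y j‖ ^ 2 + ρ ^ 2) * x) - e (1 * x))
      = ∫ x in ε..r, ∑ i ∈ s, ∑ j ∈ s, f i * f j *
        (x⁻¹ • (e ((‖y i - y j‖ ^ 2 + ρ ^ 2) * x) - e (1 * x))) := by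
    rw [intervalIntegral.integral_finsetSum]
    · refine Finset.sum_congr rfl fun i _ => ?_
      rw [intervalIntegral.integral_finsetSum]
      · refine Finset.sum_congr rfl fun j _ => ?_
        rw [intervalIntegral.integral_const_mul]
      · exact fun j _ => (hint i j).const_mul _
    · intro i _
      have h := IntervalIntegrable.sum s fun j _ => (hint i j).const_mul (f i * f j)
      refine h.congr fun x _ => ?_
      simp only [Finset.sum_apply]
  rw [h3]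
  refine intervalIntegral.integral_congr fun t _ => ?_
  simp only [hg, he, smul_eq_mul]
  have h4 : ∀ i j, f i * f j * (t⁻¹ * (Real.exp (-((‖y i - y j‖ ^ 2 + ρ ^ 2) * t))
      - Real.exp (-(1 * t)))) = Real.exp (-(t * ρ ^ 2)) *
        (f i * f j * Real.exp (-(t * ‖y i - y j‖ ^ 2))) / t
        - t⁻¹ * Real.exp (-(1 * t)) * (f i * f j) := by
    intro i j
    have h5 : Real.exp (-((‖y i - y j‖ ^ 2 + ρ ^ 2) * t))
        = Real.exp (-(t * ρ ^ 2)) * Real.exp (-(t * ‖y i - y j‖ ^ 2)) := by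
      rw [← Real.exp_add]; congr 1; ring
    rw [h5]
    ring
  simp only [h4, Finset.sum_sub_distrib, ← Finset.mul_sum, hf, mul_zero, sub_zero,
    ← Finset.sum_div]

end PDG_

open scoped Classical in
theorem stmt_PDG : Stmt_PDG := by
  intro k _ ι s y f ρ hρ hf
  have h := PDG_.G2 s y f hρ hf one_pos le_rfl
  rw [intervalIntegral.integral_same] at h
  linarith

end Pool.NS
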